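import Pool.Agent.GSR.Vec

set_option autoImplicit false

/-!
# GSR: extension of scalars
-/

namespace Pool.Agent.GSR

open Matrix

variable {F F' : Type} [CommRing F] [CommRing F'] (f : F →+* F')

theorem map_bl (M : Matrix (Fin 2) (Fin 2) F) (v v' : Fin 6 → F) :
    bl (M.map f) (fun i => f (v i)) (fun i => f (v' i)) = f (bl M v v') := by
  simp [bl]

theorem map_ln (M : Matrix (Fin 2) (Fin 2) F) (c : Fin 4 → F) (v : Fin 6 → F) :
    ln (M.map f) (fun i => f (c i)) (fun i => f (v i)) = f (ln M c v) := by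
  simp [ln]

theorem map_one' : ((1 : Matrix (Fin 2) (Fin 2) F).map f) = 1 := by
  ext i j
  fin_cases i <;> fin_cases j <;> simp

theorem map_adj (M : Matrix (Fin 2) (Fin 2) F) : (M.map f).adjugate = M.adjugate.map f := by
  ext i j
  fin_cases i <;> fin_cases j <;> simp [Matrix.adjugate_fin_two]

theorem map_det' (M : Matrix (Fin 2) (Fin 2) F) : (M.map f).det = f M.det := by
  simp [Matrix.det_fin_two]

theorem map_mix (M M' : Matrix (Fin 2) (Fin 2) F) : mix (M.map f) (M'.map f) = f (mix M M') := by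
  simp [mix]

theorem map_disc (M M' : Matrix (Fin 2) (Fin 2) F) :
    disc (M.map f) (M'.map f) = f (disc M M') := by
  have h4 : f 4 = 4 := map_ofNat f 4
  simp [disc, map_mix, map_det', h4]

theorem map_mul' (M M' : Matrix (Fin 2) (Fin 2) F) : (M * M').map f = M.map f * M'.map f := by
  ext i j
  simp [Matrix.mul_apply]

theorem map_sub' (M M' : Matrix (Fin 2) (Fin 2) F) : (M - M').map f = M.map f - M'.map f := by
  ext i j
  simp

theorem map_w (v v' : Fin 6 → F) :
    w (fun i => f (v i)) (fun i => f (v' i)) = f (w v v') := by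
  simp [w, bl]

theorem map_KK (B Z : Matrix (Fin 2) (Fin 2) F) (χ : Fin 4 → F) (v : Fin 6 → F) :
    KK (B.map f) (Z.map f) (fun i => f (χ i)) (fun i => f (v i)) = fun i => f (KK B Z χ v i) := by
  have h2 : f 2 = 2 := map_ofNat f 2
  funext i
  simp only [KK, map_adj, map_det', map_mix, map_ln, ← map_mul']
  fin_cases i <;> simp [-Matrix.map_mul, h2]

theorem map_ew (B Z : Matrix (Fin 2) (Fin 2) F) (χ : Fin 4 → F) (v : Fin 6 → F) :
    ew (B.map f) (Z.map f) (fun i => f (χ i)) (fun i => f (v i)) = fun i => f (ew B Z χ v i) := by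
  funext i
  simp only [ew, map_adj, map_ln, ← map_mul', ← map_sub', map_bl]
  fin_cases i <;> simp [-Matrix.map_mul]

theorem map_ev (B Z : Matrix (Fin 2) (Fin 2) F) (χ : Fin 4 → F) (v : Fin 6 → F) :
    ev (B.map f) (Z.map f) (fun i => f (χ i)) (fun i => f (v i)) = fun i => f (ev B Z χ v i) := by
  funext i
  simp only [ev, map_ew, map_det']
  fin_cases i <;> simp

theorem Dat.map_Z (D : Dat F) (c : Fin 2 → F) :
    (D.map f).Z (fun i => f (c i)) = (D.Z c).map f := by
  ext i j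
  fin_cases i <;> fin_cases j <;> simp [Dat.Z, Dat.map]

theorem Dat.map_χ (D : Dat F) (c : Fin 2 → F) :
    (D.map f).χ (fun i => f (c i)) = fun i => f (D.χ c i) := by
  funext i
  simp [Dat.χ, Dat.map]

theorem Dat.map_K (D : Dat F) (c : Fin 2 → F) (v : Fin 6 → F) :
    (D.map f).K (fun i => f (c i)) (fun i => f (v i)) = fun i => f (D.K c v i) := by
  rw [Dat.K, Dat.map_Z, Dat.map_χ, Dat.K, ← map_KK]
  rfl

theorem Dat.map_e0 (D : Dat F) (v : Fin 6 → F) :
    (D.map f).e0 (fun i => f (v i)) = fun i => f (D.e0 v i) := by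
  rw [Dat.e0, Dat.e0, ← map_ev]
  rfl

theorem Dat.map_e1 (D : Dat F) (v : Fin 6 → F) :
    (D.map f).e1 (fun i => f (v i)) = fun i => f (D.e1 v i) := by
  rw [Dat.e1, Dat.e1, ← map_ew, map_one']
  congr 1
  funext i
  simp

theorem Dat.map_e2 (D : Dat F) (v : Fin 6 → F) :
    (D.map f).e2 (fun i => f (v i)) = fun i => f (D.e2 v i) := by
  rw [Dat.e2, Dat.e2, ← map_ew]
  rfl

theorem Dat.map_ta (D : Dat F) (v v' : Fin 6 → F) :
    (D.map f).ta (fun i => f (v i)) (fun i => f (v' i)) = f (D.ta v v') := by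
  simp [Dat.ta, Dat.map, bl, ln]

theorem Dat.map_tb (D : Dat F) (v v' : Fin 6 → F) :
    (D.map f).tb (fun i => f (v i)) (fun i => f (v' i)) = f (D.tb v v') := by
  simp [Dat.tb, Dat.map, ln, Matrix.adjugate_fin_two, Matrix.det_fin_two]

theorem Dat.map_tau0 (D : Dat F) (v v' : Fin 6 → F) :
    (D.map f).tau0 (fun i => f (v i)) (fun i => f (v' i)) = f (D.tau0 v v') := by
  simp [Dat.tau0, Dat.map]

theorem Dat.map_tau (D : Dat F) (c : Fin 2 → F) (v v' : Fin 6 → F) :
    (D.map f).tau (fun i => f (c i)) (fun i => f (v i)) (fun i => f (v' i)) =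
      f (D.tau c v v') := by
  rw [Dat.tau, Dat.map_tau0, Dat.map_ta, Dat.map_tb, Dat.tau]
  simp

theorem Dat.map_f3 (D : Dat F) (v : Fin 6 → F) :
    (D.map f).f3 (fun i => f (v i)) = f (D.f3 v) := by
  rw [Dat.f3, Dat.f3]
  simp only [Dat.map, map_adj, map_det', ← map_mul', ← map_sub', map_bl, map_ln]
  simp

theorem Dat.map_isO (D : Dat F) (c : Fin 2 → F) (v : Fin 6 → F) (h : D.IsO c v) :
    (D.map f).IsO (fun i => f (c i)) (fun i => f (v i)) := by
  rw [Dat.IsO, Dat.map_K, map_w, Dat.map_tau, h.1, h.2, map_zero]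
  exact ⟨rfl, rfl⟩

end Pool.Agent.GSR
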