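import Pool.Agent.GSR.Eig
import Pool.Agent.GSR.Map

set_option autoImplicit false

/-!
# GSR: the third intersection point of a line of the congruence with `f₃ = 0`
-/

namespace Pool.Agent.GSR

open Matrix

section Expand

variable {F : Type} [CommRing F]

/-- The coefficient of `a² b` in `f₃ (a v + b z)`. -/
def Dat.f21 (D : Dat F) (v z : Fin 6 → F) : F :=
  -((D.B.det * z 4 - ln D.B.adjugate D.δ z) * bl (D.N * D.B - D.B * D.N) v v) -
    (D.B.det * v 4 - ln D.B.adjugate D.δ v) *
      (bl (D.N * D.B - D.B * D.N) v z + bl (D.N * D.B - D.B * D.N) z v) -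
    ln D.B.adjugate D.γ z * bl (D.E * D.B - D.B * D.E) v v -
    ln D.B.adjugate D.γ v * (bl (D.E * D.B - D.B * D.E) v z + bl (D.E * D.B - D.B * D.E) z v) +
    z 5 * bl (D.B.adjugate * (D.E * D.N - D.N * D.E) * D.B.adjugate) v v +
    v 5 * (bl (D.B.adjugate * (D.E * D.N - D.N * D.E) * D.B.adjugate) v z +
      bl (D.B.adjugate * (D.E * D.N - D.N * D.E) * D.B.adjugate) z v)

theorem f3_expand (D : Dat F) (a b : F) (v z : Fin 6 → F) :
    D.f3 (fun i => a * v i + b * z i) =
      a ^ 3 * D.f3 v + a ^ 2 * b * D.f21 v z + a * b ^ 2 * D.f21 z v + b ^ 3 * D.f3 z := by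
  simp only [Dat.f3, Dat.f21, bl, ln]
  ring

theorem KK_add (B Z : Matrix (Fin 2) (Fin 2) F) (χ : Fin 4 → F) (a b : F) (v z : Fin 6 → F)
    (i : Fin 6) :
    KK B Z χ (fun i => a * v i + b * z i) i = a * KK B Z χ v i + b * KK B Z χ z i := by
  fin_cases i <;> simp [KK, ln] <;> ring

end Expand

variable {F : Type} [Field F]

/-- The discriminant at `c`. -/
def Dat.s2 {F : Type} [CommRing F] (D : Dat F) (c : Fin 2 → F) : F := disc D.B (D.Z c)

theorem Dat.K_K {F : Type} [CommRing F] (D : Dat F) (c : Fin 2 → F) (v : Fin 6 → F) (i : Fin 6) :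
    D.K c (D.K c v) i = D.s2 c * v i := KK_KK _ _ _ _ _

/-- The relations between the coefficients of `f₃` along a line of the congruence. -/
theorem coeff_rel (h2 : (2 : F) ≠ 0) (D : Dat F) (c : Fin 2 → F) (v : Fin 6 → F)
    (hs : D.s2 c ≠ 0) :
    D.s2 c * D.f21 v (D.K c v) + D.f3 (D.K c v) = 0 ∧
      D.s2 c * D.f3 v + D.f21 (D.K c v) v = 0 := by
  set L := AlgebraicClosure F
  let f : F →+* L := algebraMap F L
  obtain ⟨s, hs1⟩ : ∃ s : L, s ^ 2 = f (D.s2 c) := IsAlgClosed.exists_pow_nat_eq _ (by norm_num)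
  have hs0 : s ≠ 0 := by
    intro h
    rw [h] at hs1
    apply hs
    apply f.injective
    rw [map_zero, ← hs1]
    ring
  have h2' : (2 : L) ≠ 0 := by
    have := (map_ne_zero f).2 h2
    rwa [map_ofNat] at this
  set v' : Fin 6 → L := fun i => f (v i) with hv'
  set z' : Fin 6 → L := fun i => f (D.K c v i) with hz'
  have hK : (D.map f).K (fun i => f (c i)) v' = z' := D.map_K f c v
  have hK2 : (D.map f).K (fun i => f (c i)) z' = fun i => s ^ 2 * v' i := by
    rw [hz', D.map_K f c (D.K c v)]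
    funext i
    rw [D.K_K, map_mul, hs1]
  have key : ∀ e : L, e ^ 2 = s ^ 2 → (D.map f).f3 (fun i => e * v' i + 1 * z' i) = 0 := by
    intro e he
    refine f3_eig h2' _ (fun i => f (c i)) _ e fun i => ?_
    have := KK_add (D.map f).B ((D.map f).Z (fun i => f (c i))) ((D.map f).χ (fun i => f (c i)))
      e 1 v' z' i
    rw [Dat.K] at hK hK2
    rw [Dat.K, this, hK, hK2]
    simp only
    linear_combination (-v' i) * he
  have e1 := key s rfl
  have e2 := key (-s) (by ring)
  rw [f3_expand] at e1 e2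
  have hf1 : (D.map f).f3 v' = f (D.f3 v) := D.map_f3 f v
  have hf2 : (D.map f).f3 z' = f (D.f3 (D.K c v)) := D.map_f3 f _
  have hf3 : ∀ a b : Fin 6 → F, (D.map f).f21 (fun i => f (a i)) (fun i => f (b i)) =
      f (D.f21 a b) := by
    intro a b
    rw [Dat.f21, Dat.f21]
    simp only [Dat.map, map_adj, map_det', ← map_mul', ← map_sub', map_bl, map_ln]
    simp
  rw [hf1, hf2, hf3, hf3] at e1 e2
  refine ⟨f.injective ?_, f.injective ?_⟩
  · rw [map_zero, map_add, map_mul, ← hs1]
    have : 2 * (s ^ 2 * f (D.f21 v (D.K c v)) + f (D.f3 (D.K c v))) = 0 := by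
      linear_combination e1 + e2
    exact (mul_eq_zero.1 this).resolve_left h2'
  · rw [map_zero, map_add, map_mul, ← hs1]
    have : 2 * s * (s ^ 2 * f (D.f3 v) + f (D.f21 (D.K c v) v)) = 0 := by
      linear_combination e1 - e2
    exact (mul_eq_zero.1 this).resolve_left (mul_ne_zero h2' hs0)

/-- The third point. -/
theorem f3_third (h2 : (2 : F) ≠ 0) (D : Dat F) (c : Fin 2 → F) (v : Fin 6 → F)
    (hs : D.s2 c ≠ 0) :
    D.f3 (fun i => D.f3 (D.K c v) * v i + D.s2 c * D.f3 v * D.K c v i) = 0 := by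
  obtain ⟨h1, h3⟩ := coeff_rel h2 D c v hs
  rw [f3_expand]
  linear_combination (D.f3 (D.K c v) ^ 2 * D.f3 v) * h1 +
    (D.f3 (D.K c v) * D.s2 c ^ 2 * D.f3 v ^ 2) * h3

/-- The two quadratic equations are stable under the torus. -/
theorem isO_sm (D : Dat F) (c : Fin 2 → F) (v : Fin 6 → F) (h : D.IsO c v) (a b : F) :
    D.IsO c (fun i => a * v i + b * D.K c v i) := by
  have hK : D.K c (fun i => a * v i + b * D.K c v i) =
      fun i => a * D.K c v i + b * (D.s2 c * v i) := by
    funext i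
    rw [Dat.K, KK_add, ← Dat.K, D.K_K]
  have hw : ∀ p q r t : F, ∀ x z : Fin 6 → F,
      w (fun i => p * x i + q * z i) (fun i => r * z i + t * x i) =
        (p * r - q * t) * w x z := by
    intro p q r t x z
    simp [w, bl]
    ring
  have hta : ∀ p q r t : F, ∀ x z : Fin 6 → F,
      D.ta (fun i => p * x i + q * z i) (fun i => r * z i + t * x i) =
        (p * r - q * t) * D.ta x z := by
    intro p q r t x z
    simp [Dat.ta, bl, ln]
    ring
  have htb : ∀ p q r t : F, ∀ x z : Fin 6 → F,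
      D.tb (fun i => p * x i + q * z i) (fun i => r * z i + t * x i) =
        (p * r - q * t) * D.tb x z := by
    intro p q r t x z
    simp [Dat.tb, ln]
    ring
  have ht0 : ∀ p q r t : F, ∀ x z : Fin 6 → F,
      D.tau0 (fun i => p * x i + q * z i) (fun i => r * z i + t * x i) =
        (p * r - q * t) * D.tau0 x z := by
    intro p q r t x z
    simp only [Dat.tau0, Finset.mul_sum]
    refine Finset.sum_congr rfl fun i _ => Finset.sum_congr rfl fun j _ => ?_
    ring
  have hK' : D.K c (fun i => a * v i + b * D.K c v i) =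
      fun i => a * D.K c v i + (b * D.s2 c) * v i := by
    rw [hK]
    funext i
    ring
  refine ⟨?_, ?_⟩
  · rw [hK', hw, h.1, mul_zero]
  · rw [hK', Dat.tau, ht0, hta, htb]
    have := h.2
    rw [Dat.tau] at this
    linear_combination (a * a - b * (b * D.s2 c)) * this

end Pool.Agent.GSR
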