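import Pool.Agent.GSR.RMain

set_option autoImplicit false

/-!
# GSR: homogeneous form of the non-degeneracy conditions
-/

namespace Pool.Agent.GSR

open Matrix

section Ring

variable {F F' : Type} [CommRing F] [CommRing F']

def Dat.hLam (D : Dat F) (v : Fin 6 → F) (a b : F) : F :=
  v 5 * a ^ 2 + a * b * (v 5 * (D.N 0 0 + D.N 1 1) - ln 1 D.γ v) +
    b ^ 2 * (v 5 * D.N.det - ln D.N.adjugate D.γ v)

def Dat.hA0 (D : Dat F) (m p0 p1 : F) (v : Fin 6 → F) : F :=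
  -(v 5 * (m * v 4 * (D.B 0 0 + D.B 1 1) + v 5 * (m * (D.E 0 0 + D.E 1 1) - 2 * p0 -
    p1 * (D.N 0 0 + D.N 1 1)) - (m * ln 1 D.δ v - p1 * ln 1 D.γ v)))

def Dat.hA1 (D : Dat F) (m p0 p1 : F) (v : Fin 6 → F) : F :=
  -(m * v 4 * v 5 * mix D.B D.N +
    v 5 ^ 2 * (m * mix D.E D.N - p0 * (D.N 0 0 + D.N 1 1) - 2 * p1 * D.N.det) -
    m * v 4 * ln D.B.adjugate D.γ v -
    v 5 * (m * ln D.E.adjugate D.γ v - p0 * ln 1 D.γ v - p1 * ln D.N.adjugate D.γ v) -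
    v 5 * (m * ln D.N.adjugate D.δ v - p1 * ln D.N.adjugate D.γ v) +
    m * bl (D.N * D.B - D.B * D.N) v v)

def Dat.hM0 (D : Dat F) (v : Fin 6 → F) : F :=
  v 5 * (D.m v * D.tau0 v (D.e1 v) + D.p0 v * D.ta v (D.e1 v) + D.p1 v * D.tb v (D.e1 v)) -
    D.rho v * D.hA0 (D.m v) (D.p0 v) (D.p1 v) v

def Dat.hM1 (D : Dat F) (v : Fin 6 → F) : F :=
  v 5 * (D.m v * D.tau0 v (D.e2 v) + D.p0 v * D.ta v (D.e2 v) + D.p1 v * D.tb v (D.e2 v)) -
    D.rho v * D.hA1 (D.m v) (D.p0 v) (D.p1 v) v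

/-- The three polynomials (besides `y`) which must not vanish at the third point. -/
def Dat.hP (D : Dat F) (v : Fin 6 → F) : F :=
  v 5 * (D.m v * (D.hLam v (D.hM1 v) (-D.hM0 v) * bl (D.N * D.B - D.B * D.N) v v))

/-- Non-degeneracy, homogeneous form. -/
def Dat.NDegH (D : Dat F) (v : Fin 6 → F) : Prop := D.hP v ≠ 0

theorem ew_smul (B M : Matrix (Fin 2) (Fin 2) F) (c : Fin 4 → F) (a : F) (v : Fin 6 → F) :
    ew B M c (fun i => a * v i) = fun i => a ^ 2 * ew B M c v i := by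
  funext i
  fin_cases i <;> simp [ew, ln, bl] <;> ring

theorem ev_smul (B M : Matrix (Fin 2) (Fin 2) F) (c : Fin 4 → F) (a : F) (v : Fin 6 → F) :
    ev B M c (fun i => a * v i) = fun i => a ^ 2 * ev B M c v i := by
  funext i
  rw [ev, ew_smul]
  fin_cases i <;> simp [ev] <;> ring

theorem m_smul (D : Dat F) (a : F) (v : Fin 6 → F) :
    D.m (fun i => a * v i) = a ^ 4 * D.m v := by
  rw [Dat.m, Dat.e1, ew_smul, Dat.e2, ew_smul, Dat.m, Dat.e1, Dat.e2]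
  ring

theorem p0_smul (D : Dat F) (a : F) (v : Fin 6 → F) :
    D.p0 (fun i => a * v i) = a ^ 4 * D.p0 v := by
  rw [Dat.p0, Dat.e0, ev_smul, Dat.e2, ew_smul, Dat.p0, Dat.e0, Dat.e2]
  ring

theorem p1_smul (D : Dat F) (a : F) (v : Fin 6 → F) :
    D.p1 (fun i => a * v i) = a ^ 4 * D.p1 v := by
  rw [Dat.p1, Dat.e0, ev_smul, Dat.e1, ew_smul, Dat.p1, Dat.e0, Dat.e1]
  ring

theorem rho_smul (D : Dat F) (a : F) (v : Fin 6 → F) :
    D.rho (fun i => a * v i) = a ^ 2 * D.rho v := by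
  simp only [Dat.rho, ln, bl]
  ring

theorem ta_smul (D : Dat F) (a b : F) (v z : Fin 6 → F) :
    D.ta (fun i => a * v i) (fun i => b * z i) = a * b * D.ta v z := by
  simp only [Dat.ta, ln, bl]
  ring

theorem tb_smul (D : Dat F) (a b : F) (v z : Fin 6 → F) :
    D.tb (fun i => a * v i) (fun i => b * z i) = a * b * D.tb v z := by
  simp only [Dat.tb, ln]
  ring

theorem tau0_smul (D : Dat F) (a b : F) (v z : Fin 6 → F) :
    D.tau0 (fun i => a * v i) (fun i => b * z i) = a * b * D.tau0 v z := by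
  simp only [Dat.tau0, Finset.mul_sum]
  refine Finset.sum_congr rfl fun i _ => Finset.sum_congr rfl fun j _ => ?_
  ring

theorem hA0_smul (D : Dat F) (a m p0 p1 : F) (v : Fin 6 → F) :
    D.hA0 (a ^ 4 * m) (a ^ 4 * p0) (a ^ 4 * p1) (fun i => a * v i) =
      a ^ 6 * D.hA0 m p0 p1 v := by
  simp only [Dat.hA0, ln]
  ring

theorem hA1_smul (D : Dat F) (a m p0 p1 : F) (v : Fin 6 → F) :
    D.hA1 (a ^ 4 * m) (a ^ 4 * p0) (a ^ 4 * p1) (fun i => a * v i) =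
      a ^ 6 * D.hA1 m p0 p1 v := by
  simp only [Dat.hA1, ln, bl]
  ring

theorem hM0_smul (D : Dat F) (a : F) (v : Fin 6 → F) :
    D.hM0 (fun i => a * v i) = a ^ 8 * D.hM0 v := by
  rw [Dat.hM0, m_smul, p0_smul, p1_smul, rho_smul, hA0_smul, Dat.e1, ew_smul, tau0_smul,
    ta_smul, tb_smul, Dat.hM0, Dat.e1]
  ring

theorem hM1_smul (D : Dat F) (a : F) (v : Fin 6 → F) :
    D.hM1 (fun i => a * v i) = a ^ 8 * D.hM1 v := by
  rw [Dat.hM1, m_smul, p0_smul, p1_smul, rho_smul, hA1_smul, Dat.e2, ew_smul, tau0_smul,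
    ta_smul, tb_smul, Dat.hM1, Dat.e2]
  ring

theorem hP_smul (D : Dat F) (a : F) (v : Fin 6 → F) :
    D.hP (fun i => a * v i) = a ^ 24 * D.hP v := by
  rw [Dat.hP, m_smul, hM0_smul, hM1_smul, Dat.hP]
  simp only [Dat.hLam, ln, bl]
  ring

theorem Dat.map_hA0 (f : F →+* F') (D : Dat F) (a b c : F) (v : Fin 6 → F) :
    (D.map f).hA0 (f a) (f b) (f c) (fun i => f (v i)) = f (D.hA0 a b c v) := by
  have h2 : f 2 = 2 := map_ofNat f 2
  simp [Dat.hA0, ln, Dat.map, h2]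

theorem Dat.map_hA1 (f : F →+* F') (D : Dat F) (a b c : F) (v : Fin 6 → F) :
    (D.map f).hA1 (f a) (f b) (f c) (fun i => f (v i)) = f (D.hA1 a b c v) := by
  have h2 : f 2 = 2 := map_ofNat f 2
  simp [Dat.hA1, ln, bl, mix, Dat.map, h2, Matrix.det_fin_two, Matrix.adjugate_fin_two,
    Matrix.mul_apply]

theorem Dat.map_hM0 (f : F →+* F') (D : Dat F) (v : Fin 6 → F) :
    (D.map f).hM0 (fun i => f (v i)) = f (D.hM0 v) := by
  rw [Dat.hM0, D.map_m f, D.map_p0 f, D.map_p1 f, D.map_rho f, D.map_hA0 f, D.map_e1 f,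
    D.map_tau0 f, D.map_ta f, D.map_tb f, Dat.hM0]
  simp only [map_add, map_sub, map_mul]

theorem Dat.map_hM1 (f : F →+* F') (D : Dat F) (v : Fin 6 → F) :
    (D.map f).hM1 (fun i => f (v i)) = f (D.hM1 v) := by
  rw [Dat.hM1, D.map_m f, D.map_p0 f, D.map_p1 f, D.map_rho f, D.map_hA1 f, D.map_e2 f,
    D.map_tau0 f, D.map_ta f, D.map_tb f, Dat.hM1]
  simp only [map_add, map_sub, map_mul]

theorem Dat.map_hP (f : F →+* F') (D : Dat F) (v : Fin 6 → F) :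
    (D.map f).hP (fun i => f (v i)) = f (D.hP v) := by
  have h : ∀ a b : F, (D.map f).hLam (fun i => f (v i)) (f a) (f b) = f (D.hLam v a b) := by
    intro a b
    simp [Dat.hLam, ln, Dat.map, Matrix.adjugate_fin_two, Matrix.det_fin_two]
  rw [Dat.hP, D.map_m f, D.map_hM0 f, D.map_hM1 f, ← map_neg, h, Dat.hP]
  simp only [Dat.map, ← map_mul', ← map_sub', map_bl, map_mul]

end Ring

/-- (i) homogeneity. -/
theorem NDegH_smul {F : Type} [Field F] (D : Dat F) (a : F) (ha : a ≠ 0) (v : Fin 6 → F) :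
    D.NDegH (fun i => a * v i) ↔ D.NDegH v := by
  rw [Dat.NDegH, Dat.NDegH, hP_smul, ne_eq, mul_eq_zero, not_or]
  exact ⟨fun h => h.2, fun h => ⟨pow_ne_zero _ ha, h⟩⟩

/-- (ii) specialisation. -/
theorem NDegH_of_spec {R E k : Type} [CommRing R] [Field E] [Field k] (i : R →+* E)
    (π : R →+* k) (hi : ∀ x : R, π x ≠ 0 → i x ≠ 0) (D : Dat R) (v : Fin 6 → R)
    (h : (D.map π).NDegH (fun j => π (v j))) : (D.map i).NDegH (fun j => i (v j)) := by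
  rw [Dat.NDegH, D.map_hP] at h ⊢
  exact hi _ h

/-- (iii) the homogeneous form implies the form used in part R. -/
theorem NDegH.nDeg {F : Type} [Field F] (D : Dat F) (v : Fin 6 → F) (h : D.NDegH v) :
    v 5 ≠ 0 ∧ D.NDeg (fun i => (v 5)⁻¹ * v i) := by
  have h5 : v 5 ≠ 0 := by
    intro h0
    apply h
    rw [Dat.hP, h0, zero_mul]
  refine ⟨h5, ?_⟩
  set u : Fin 6 → F := fun i => (v 5)⁻¹ * v i with hu
  have hu5 : u 5 = 1 := inv_mul_cancel₀ h5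
  have hP : D.hP u ≠ 0 := (NDegH_smul D _ (inv_ne_zero h5) v).2 h
  rw [Dat.hP, hu5, one_mul] at hP
  have hm := left_ne_zero_of_mul hP
  have h1 := right_ne_zero_of_mul hP
  have hl := left_ne_zero_of_mul h1
  have hs := right_ne_zero_of_mul h1
  refine ⟨hu5, hm, ?_, hs⟩
  have e0 : D.hM0 u = D.M0 u := by
    rw [Dat.hM0, Dat.M0, Dat.hA0, Dat.A0, hu5]
    ring
  have e1 : D.hM1 u = D.M1 u := by
    rw [Dat.hM1, Dat.M1, Dat.hA1, Dat.A1, hu5]
    ring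
  rw [e0, e1] at hl
  intro h0
  apply hl
  rw [← h0, Dat.hLam, Dat.Lam, hu5]
  ring

/-- **Part R**, homogeneous form: `p` is the third point of the line through `v` and `K_c v`. -/
theorem r_final {k Ω : Type} [Field k] [Field Ω] [Algebra k Ω] (h2 : (2 : k) ≠ 0) (D : Dat k)
    (hB : D.B.det ≠ 0) (c : Fin 2 → Ω) (v : Fin 6 → Ω)
    (hs : (D.map (algebraMap k Ω)).s2 c ≠ 0)
    (hO : (D.map (algebraMap k Ω)).IsO c v) (p : Fin 6 → Ω)
    (hp : p = (D.map (algebraMap k Ω)).third c v)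
    (hn : (D.map (algebraMap k Ω)).NDegH p) :
    p 5 ≠ 0 ∧ ∀ T : IntermediateField k Ω,
      (∀ i : Fin 6, (i : ℕ) < 4 → (p 5)⁻¹ * p i ∈ T) →
        (∀ i, (p 5)⁻¹ * p i ∈ T) ∧ ∀ i, c i ∈ T := by
  obtain ⟨h5, hn'⟩ := NDegH.nDeg _ _ hn
  exact ⟨h5, fun T hT => r_main h2 D hB c v hs hO p hp hn' T hT⟩

end Pool.Agent.GSR
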