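import Pool.Agent.GSR.RGen

set_option autoImplicit false

/-!
# GSR: part R, final form
-/

namespace Pool.Agent.GSR

open Matrix

/-- The third point of the line through `v` and `K_c v`, not normalised. -/
def Dat.third {F : Type} [CommRing F] (D : Dat F) (c : Fin 2 → F) (v : Fin 6 → F) :
    Fin 6 → F := fun i => D.f3 (D.K c v) * v i + D.s2 c * D.f3 v * D.K c v i

theorem f3_smul {F : Type} [CommRing F] (D : Dat F) (a : F) (v : Fin 6 → F) :
    D.f3 (fun i => a * v i) = a ^ 3 * D.f3 v := by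
  have := f3_expand D a 0 v v
  simpa using this

theorem isO_smul {F : Type} [Field F] (D : Dat F) (c : Fin 2 → F) (v : Fin 6 → F)
    (h : D.IsO c v) (a : F) : D.IsO c (fun i => a * v i) := by
  have := isO_sm D c v h a 0
  simpa using this

/-- **Part R.** `v` satisfies the two equations over `c`, its third point `p` has `p 5 ≠ 0` and
`p / p 5` is not degenerate. Then every field which contains the four ratios
`p 0 / p 5, …, p 3 / p 5` contains all the ratios and `c`. -/
theorem r_main {k Ω : Type} [Field k] [Field Ω] [Algebra k Ω] (h2 : (2 : k) ≠ 0) (D : Dat k)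
    (hB : D.B.det ≠ 0) (c : Fin 2 → Ω) (v : Fin 6 → Ω)
    (hs : (D.map (algebraMap k Ω)).s2 c ≠ 0)
    (hO : (D.map (algebraMap k Ω)).IsO c v) (p : Fin 6 → Ω)
    (hp : p = (D.map (algebraMap k Ω)).third c v)
    (hn : (D.map (algebraMap k Ω)).NDeg (fun i => (p 5)⁻¹ * p i)) (T : IntermediateField k Ω)
    (hT : ∀ i : Fin 6, (i : ℕ) < 4 → (p 5)⁻¹ * p i ∈ T) :
    (∀ i, (p 5)⁻¹ * p i ∈ T) ∧ ∀ i, c i ∈ T := by
  have h2Ω : (2 : Ω) ≠ 0 := by
    have := (map_ne_zero (algebraMap k Ω)).2 h2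
    rwa [map_ofNat] at this
  refine r_gen h2 D hB c _ hn ?_ ?_ T (hT 0 (by norm_num)) (hT 1 (by norm_num))
    (hT 2 (by norm_num)) (hT 3 (by norm_num))
  · have h3 : (D.map (algebraMap k Ω)).f3 p = 0 := by
      rw [hp]
      exact f3_third h2Ω _ c v hs
    rw [f3_smul, h3, mul_zero]
  · refine isO_smul _ c p ?_ _
    rw [hp]
    exact isO_sm _ c v hO _ _

end Pool.Agent.GSR
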