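import Mathlib

set_option autoImplicit false

/-!
# GSR: the type O datum of a cubic fourfold of discriminant 24 (normal form)

A datum consists of three `2 × 2` matrices `B, N, E`, two linear forms `γ, δ` on a space of
dimension four and an arbitrary alternating form `τ` on a space of dimension six (given by a matrix
`t`: `τ v v' = ∑ t_ij (v_i v'_j - v'_i v_j)`).

Coordinates of `U = F^6`: `S = (v 0, v 1)`, `T = (v 2, v 3)`, `x = v 4`, `y = v 5`.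
-/

namespace Pool.Agent.GSR

open Matrix

/-- The type O datum in normal form. -/
structure Dat (R : Type) where
  B : Matrix (Fin 2) (Fin 2) R
  N : Matrix (Fin 2) (Fin 2) R
  E : Matrix (Fin 2) (Fin 2) R
  γ : Fin 4 → R
  δ : Fin 4 → R
  t : Matrix (Fin 6) (Fin 6) R

/-- Extension of scalars. -/
def Dat.map {R R' : Type} (f : R → R') (D : Dat R) : Dat R' :=
  ⟨D.B.map f, D.N.map f, D.E.map f, fun i => f (D.γ i), fun i => f (D.δ i), D.t.map f⟩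

variable {F : Type} [CommRing F]

/-- The bilinear form `Sᵀ M T'`. -/
def bl (M : Matrix (Fin 2) (Fin 2) F) (v v' : Fin 6 → F) : F :=
  v 0 * (M 0 0 * v' 2 + M 0 1 * v' 3) + v 1 * (M 1 0 * v' 2 + M 1 1 * v' 3)

/-- The linear form `Sᵀ M c_S + c_Tᵀ M T`, `c = (c_S, c_T)`. -/
def ln (M : Matrix (Fin 2) (Fin 2) F) (c : Fin 4 → F) (v : Fin 6 → F) : F :=
  v 0 * (M 0 0 * c 0 + M 0 1 * c 1) + v 1 * (M 1 0 * c 0 + M 1 1 * c 1) +
    (c 2 * (M 0 0 * v 2 + M 0 1 * v 3) + c 3 * (M 1 0 * v 2 + M 1 1 * v 3))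

/-- The symplectic form `S·T' - S'·T + x y' - x' y`. -/
def w (v v' : Fin 6 → F) : F := bl 1 v v' - bl 1 v' v + (v 4 * v' 5 - v' 4 * v 5)

/-- The mixed determinant: `det (ρ B + Z) = ρ² det B + ρ mix B Z + det Z`. -/
def mix (B Z : Matrix (Fin 2) (Fin 2) F) : F :=
  B 0 0 * Z 1 1 + B 1 1 * Z 0 0 - B 0 1 * Z 1 0 - B 1 0 * Z 0 1

/-- The discriminant of `det (ρ B + Z)`. -/
def disc (B Z : Matrix (Fin 2) (Fin 2) F) : F := mix B Z ^ 2 - 4 * B.det * Z.det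

/-- The operator on `U` defined by `B`, `Z` and a linear form `χ`; its square is `disc B Z`. -/
def KK (B Z : Matrix (Fin 2) (Fin 2) F) (χ : Fin 4 → F) (v : Fin 6 → F) : Fin 6 → F :=
  ![2 * (v 0 * (B.adjugate * Z) 0 0 + v 1 * (B.adjugate * Z) 1 0) - mix B Z * v 0,
    2 * (v 0 * (B.adjugate * Z) 0 1 + v 1 * (B.adjugate * Z) 1 1) - mix B Z * v 1,
    2 * ((Z * B.adjugate) 0 0 * v 2 + (Z * B.adjugate) 0 1 * v 3) - mix B Z * v 2,
    2 * ((Z * B.adjugate) 1 0 * v 2 + (Z * B.adjugate) 1 1 * v 3) - mix B Z * v 3,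
    mix B Z * v 4 + 2 * Z.det * v 5 - 2 * ln Z.adjugate χ v,
    -2 * B.det * v 4 - mix B Z * v 5 + 2 * ln B.adjugate χ v]

/-- `Z = E - c₀ - c₁ N`. -/
def Dat.Z (D : Dat F) (c : Fin 2 → F) : Matrix (Fin 2) (Fin 2) F :=
  D.E - c 0 • (1 : Matrix (Fin 2) (Fin 2) F) - c 1 • D.N

/-- `χ = δ - c₁ γ`. -/
def Dat.χ (D : Dat F) (c : Fin 2 → F) : Fin 4 → F := fun i => D.δ i - c 1 * D.γ i

/-- The operator `K_c` on `U`. -/
def Dat.K (D : Dat F) (c : Fin 2 → F) : (Fin 6 → F) → (Fin 6 → F) := KK D.B (D.Z c) (D.χ c)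

/-- The alternating form `τ`. -/
def Dat.tau0 (D : Dat F) (v v' : Fin 6 → F) : F :=
  ∑ i, ∑ j, D.t i j * (v i * v' j - v' i * v j)

/-- The alternating form `{N} + x ∧ γ`. -/
def Dat.ta (D : Dat F) (v v' : Fin 6 → F) : F :=
  bl D.N v v' - bl D.N v' v + (v 4 * ln 1 D.γ v' - v' 4 * ln 1 D.γ v)

/-- The alternating form `x ∧ (γ(N') - det N y)`. -/
def Dat.tb (D : Dat F) (v v' : Fin 6 → F) : F :=
  v 4 * (ln D.N.adjugate D.γ v' - D.N.det * v' 5) -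
    v' 4 * (ln D.N.adjugate D.γ v - D.N.det * v 5)

/-- The alternating form `τ_c = τ + c₀ ({N} + x ∧ γ) + c₁ x ∧ (γ(N') - det N y)`. -/
def Dat.tau (D : Dat F) (c : Fin 2 → F) (v v' : Fin 6 → F) : F :=
  D.tau0 v v' + c 0 * D.ta v v' + c 1 * D.tb v v'

/-- The two quadratic equations `w(v, K_c v) = τ_c(v, K_c v) = 0`. -/
def Dat.IsO (D : Dat F) (c : Fin 2 → F) (v : Fin 6 → F) : Prop :=
  w v (D.K c v) = 0 ∧ D.tau c v (D.K c v) = 0

/-- The cubic form `f₃`. -/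
def Dat.f3 (D : Dat F) (v : Fin 6 → F) : F :=
  -((D.B.det * v 4 - ln D.B.adjugate D.δ v) * bl (D.N * D.B - D.B * D.N) v v) -
    ln D.B.adjugate D.γ v * bl (D.E * D.B - D.B * D.E) v v +
    v 5 * bl (D.B.adjugate * (D.E * D.N - D.N * D.E) * D.B.adjugate) v v

end Pool.Agent.GSR
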