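import Pool.Agent.GSR.Vec

set_option autoImplicit false

/-!
# GSR: `f₃` vanishes on the eigenvectors of `K_c`
-/

namespace Pool.Agent.GSR

open Matrix

variable {F : Type}

theorem w_self [CommRing F] (v : Fin 6 → F) : w v v = 0 := by
  simp [w]

theorem w_smul_right [CommRing F] (a : F) (v v' : Fin 6 → F) :
    w v (fun i => a * v' i) = a * w v v' := by
  simp [w, bl]
  ring

theorem w_smul_left [CommRing F] (a : F) (v v' : Fin 6 → F) :
    w (fun i => a * v i) v' = a * w v v' := by
  simp [w, bl]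
  ring

theorem w_anti [CommRing F] (v v' : Fin 6 → F) : w v v' = - w v' v := by
  simp only [w]
  ring

theorem w_lin [CommRing F] (a b : F) (v v' z : Fin 6 → F) :
    w (fun i => a * v i + b * v' i) z = a * w v z + b * w v' z := by
  simp [w, bl]
  ring

theorem w_e1_e2 [CommRing F] (D : Dat F) (v : Fin 6 → F) : w (D.e1 v) (D.e2 v) = 0 := by
  rw [w_anti, Dat.e1, Dat.e2, w_ew_e1, neg_zero]

theorem f3_of_e [Field F] (D : Dat F) (c : Fin 2 → F) (v : Fin 6 → F) (hy : v 5 ≠ 0)
    (he : ∀ i, D.e c v i = 0) : D.f3 v = 0 := by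
  have h1 : D.e0 v = fun i => c 0 * D.e1 v i + c 1 * D.e2 v i := by
    funext i
    have := he i
    rw [D.e_eq] at this
    linear_combination this
  have h2 := w_e0_e2 D v
  rw [h1, w_lin, w_e1_e2, w_self, mul_zero, mul_zero, add_zero] at h2
  exact (mul_eq_zero.1 h2.symm).resolve_left hy

theorem e_of_eig [Field F] (h2 : (2 : F) ≠ 0) (D : Dat F) (c : Fin 2 → F) (v : Fin 6 → F)
    (hy : v 5 ≠ 0) (s : F) (hs : ∀ i, D.K c v i = s * v i) : ∀ i, D.e c v i = 0 := by
  have hW : w v (D.K c v) = 0 := by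
    have : D.K c v = fun i => s * v i := funext hs
    rw [this, w_smul_right, w_self, mul_zero]
  have h1 : ∀ i, v 5 * (s * v i) = kap D.B (D.Z c) (D.χ c) v * v i + 2 * D.e c v i := by
    intro i
    have := KK_eq D.B (D.Z c) (D.χ c) v i
    rw [Dat.K] at hW hs
    rw [hW, zero_mul, sub_zero, hs] at this
    exact this
  have h5 : D.e c v 5 = 0 := rfl
  have h3 : v 5 * s = kap D.B (D.Z c) (D.χ c) v := by
    have := h1 5
    rw [h5, mul_zero, add_zero] at this
    have h4 : v 5 * (v 5 * s - kap D.B (D.Z c) (D.χ c) v) = 0 := by linear_combination this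
    linear_combination (mul_eq_zero.1 h4).resolve_left hy
  intro i
  have := h1 i
  have h4 : 2 * D.e c v i = 0 := by linear_combination (-1 : F) * this + v i * h3
  exact (mul_eq_zero.1 h4).resolve_left h2

theorem f3_eig [Field F] (h2 : (2 : F) ≠ 0) (D : Dat F) (c : Fin 2 → F) (v : Fin 6 → F)
    (s : F) (hs : ∀ i, D.K c v i = s * v i) : D.f3 v = 0 := by
  by_cases hy : v 5 = 0
  · have h5 := hs 5
    have h0 := hs 0
    have h1 := hs 1
    have h3 := hs 2
    have h4 := hs 3
    simp only [Dat.K, KK, Matrix.cons_val] at h0 h1 h3 h4 h5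
    have hx : D.B.det * v 4 = ln D.B.adjugate (D.χ c) v := by
      have : 2 * (D.B.det * v 4 - ln D.B.adjugate (D.χ c) v) = 0 := by
        rw [hy] at h5
        linear_combination (-1 : F) * h5
      linear_combination (mul_eq_zero.1 this).resolve_left h2
    have hχ : ln D.B.adjugate (D.χ c) v =
        ln D.B.adjugate D.δ v - c 1 * ln D.B.adjugate D.γ v := by
      simp [ln, Dat.χ]
      ring
    have hZ : bl (D.Z c * D.B - D.B * D.Z c) v v =
        bl (D.E * D.B - D.B * D.E) v v - c 1 * bl (D.N * D.B - D.B * D.N) v v := by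
      simp [bl, Dat.Z, Matrix.mul_apply, Fin.sum_univ_two]
      ring
    have hb : 2 * bl (D.Z c * D.B - D.B * D.Z c) v v = 0 := by
      simp [Matrix.mul_apply, Fin.sum_univ_two, Matrix.adjugate_fin_two] at h0 h1 h3 h4
      simp only [bl, Matrix.sub_apply, Matrix.mul_apply, Fin.sum_univ_two]
      linear_combination h0 * v 2 + h1 * v 3 - v 0 * h3 - v 1 * h4
    have hb' := (mul_eq_zero.1 hb).resolve_left h2
    rw [Dat.f3, hy, hx, hχ]
    rw [hZ] at hb'
    linear_combination (-ln D.B.adjugate D.γ v) * hb'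
  · exact f3_of_e D c v hy (e_of_eig h2 D c v hy s hs)

end Pool.Agent.GSR
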