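import Pool.Agent.GSR.Third

set_option autoImplicit false

/-!
# GSR: the dependence on `c` of the two quadratic equations at a fixed vector `v` with `y = 1`
-/

namespace Pool.Agent.GSR

open Matrix

section Ring

variable {F : Type} [CommRing F]

/-- `w (v, KK v) = -2 qf`. -/
def qf (B Z : Matrix (Fin 2) (Fin 2) F) (χ : Fin 4 → F) (v : Fin 6 → F) : F :=
  B.det * v 4 ^ 2 + mix B Z * v 4 * v 5 + Z.det * v 5 ^ 2 - v 4 * ln B.adjugate χ v -
    v 5 * ln Z.adjugate χ v + bl (Z * B - B * Z) v v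

theorem w_KK (B Z : Matrix (Fin 2) (Fin 2) F) (χ : Fin 4 → F) (v : Fin 6 → F) :
    w v (KK B Z χ v) = -2 * qf B Z χ v := by
  simp only [KK, qf, w, mix, ln, bl, Matrix.det_fin_two, Matrix.adjugate_fin_two,
    Matrix.mul_apply, Matrix.sub_apply, Fin.sum_univ_two]
  simp
  ring

theorem w_v_ew (B M : Matrix (Fin 2) (Fin 2) F) (c : Fin 4 → F) (v : Fin 6 → F) :
    w v (ew B M c v) = 0 := by
  simp [ew, w, ln, bl, Matrix.adjugate_fin_two, Matrix.mul_apply, Fin.sum_univ_two]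
  ring

theorem w_v_ev (B M : Matrix (Fin 2) (Fin 2) F) (c : Fin 4 → F) (v : Fin 6 → F) :
    w v (ev B M c v) = 0 := by
  have h : w v (ev B M c v) = w v (ew B M c v) := by
    simp [ev, ew, w, bl]
    ring
  rw [h, w_v_ew]

/-- The leading form. -/
def Dat.Lam (D : Dat F) (v : Fin 6 → F) (a b : F) : F :=
  a ^ 2 + a * b * (D.N 0 0 + D.N 1 1 - ln 1 D.γ v) +
    b ^ 2 * (D.N.det - ln D.N.adjugate D.γ v)

def Dat.rho (D : Dat F) (v : Fin 6 → F) : F :=
  v 4 * ln D.B.adjugate D.γ v - bl (D.N * D.B - D.B * D.N) v v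

theorem ta_e1 (D : Dat F) (v : Fin 6 → F) (hy : v 5 = 1) : D.ta v (D.e1 v) = D.rho v := by
  simp [Dat.ta, Dat.e1, Dat.rho, ew, bl, ln, Matrix.adjugate_fin_two, Matrix.mul_apply,
    Fin.sum_univ_two, hy]
  ring

theorem tab_e (D : Dat F) (v : Fin 6 → F) (hy : v 5 = 1) :
    D.ta v (D.e2 v) + D.tb v (D.e1 v) = D.rho v * (D.N 0 0 + D.N 1 1 - ln 1 D.γ v) := by
  simp [Dat.ta, Dat.tb, Dat.e1, Dat.e2, Dat.rho, ew, bl, ln, Matrix.adjugate_fin_two,
    Matrix.mul_apply, Matrix.det_fin_two, Fin.sum_univ_two, hy]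
  ring

theorem tb_e2 (D : Dat F) (v : Fin 6 → F) (hy : v 5 = 1) :
    D.tb v (D.e2 v) = D.rho v * (D.N.det - ln D.N.adjugate D.γ v) := by
  simp [Dat.tb, Dat.e2, Dat.rho, ew, bl, ln, Matrix.adjugate_fin_two,
    Matrix.mul_apply, Matrix.det_fin_two, Fin.sum_univ_two, hy]
  ring

/-- The coefficient of `g₀` in `m qf`, at the point `(p₀/m, p₁/m)`. -/
def Dat.A0 (D : Dat F) (m p0 p1 : F) (v : Fin 6 → F) : F :=
  -(m * v 4 * (D.B 0 0 + D.B 1 1) + (m * (D.E 0 0 + D.E 1 1) - 2 * p0 -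
    p1 * (D.N 0 0 + D.N 1 1)) - (m * ln 1 D.δ v - p1 * ln 1 D.γ v))

/-- The coefficient of `g₁` in `m qf`, at the point `(p₀/m, p₁/m)`. -/
def Dat.A1 (D : Dat F) (m p0 p1 : F) (v : Fin 6 → F) : F :=
  -(m * v 4 * mix D.B D.N + (m * mix D.E D.N - p0 * (D.N 0 0 + D.N 1 1) - 2 * p1 * D.N.det) -
    m * v 4 * ln D.B.adjugate D.γ v -
    (m * ln D.E.adjugate D.γ v - p0 * ln 1 D.γ v - p1 * ln D.N.adjugate D.γ v) -
    (m * ln D.N.adjugate D.δ v - p1 * ln D.N.adjugate D.γ v) +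
    m * bl (D.N * D.B - D.B * D.N) v v)

theorem qf_expand (D : Dat F) (m g0 g1 : F) (c : Fin 2 → F) (v : Fin 6 → F)
    (hy : v 5 = 1) :
    m * qf D.B (D.Z (fun i => c i + ![g0, g1] i)) (D.χ (fun i => c i + ![g0, g1] i)) v =
      m * qf D.B (D.Z c) (D.χ c) v + D.A0 m (m * c 0) (m * c 1) v * g0 +
        D.A1 m (m * c 0) (m * c 1) v * g1 + m * D.Lam v g0 g1 := by
  simp [qf, Dat.A0, Dat.A1, Dat.Lam, Dat.Z, Dat.χ, mix, bl, ln, Matrix.adjugate_fin_two,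
    Matrix.mul_apply, Matrix.det_fin_two, Fin.sum_univ_two, hy]
  ring

end Ring

variable {F : Type} [Field F]

/-- If `e_c = 0` then the first equation holds. -/
theorem w_of_e (h2 : (2 : F) ≠ 0) (D : Dat F) (hB : D.B.det ≠ 0) (c : Fin 2 → F)
    (v : Fin 6 → F) (hy : v 5 = 1) (hv : v 0 ≠ 0 ∨ v 1 ≠ 0 ∨ v 2 ≠ 0 ∨ v 3 ≠ 0)
    (he : ∀ i, D.e c v i = 0) : w v (D.K c v) = 0 := by
  set W := w v (D.K c v) with hW
  set k := kap D.B (D.Z c) (D.χ c) v with hk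
  have h1 : D.K c v = fun i => k * v i + (-W) * (![0, 0, 0, 0, 1, 0] : Fin 6 → F) i := by
    funext i
    have := KK_eq D.B (D.Z c) (D.χ c) v i
    rw [← Dat.K, ← Dat.e, he, hy, ← hW, ← hk] at this
    rw [one_mul] at this
    rw [this]
    fin_cases i <;> simp
    ring
  have h3 : ∀ i, D.s2 c * v i = k * (k * v i + (-W) * (![0, 0, 0, 0, 1, 0] : Fin 6 → F) i) +
      (-W) * D.K c ![0, 0, 0, 0, 1, 0] i := by
    intro i
    rw [← D.K_K]
    conv_lhs => rw [h1]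
    have h4 : D.K c (fun i => k * v i + (-W) * (![0, 0, 0, 0, 1, 0] : Fin 6 → F) i) i =
        k * D.K c v i + (-W) * D.K c ![0, 0, 0, 0, 1, 0] i :=
      KK_add D.B (D.Z c) (D.χ c) k (-W) v ![0, 0, 0, 0, 1, 0] i
    rw [h4, h1]
  have hK : D.K c ![0, 0, 0, 0, 1, 0] = ![0, 0, 0, 0, mix D.B (D.Z c), -2 * D.B.det] := by
    funext i
    fin_cases i <;> simp [Dat.K, KK, ln]
  rw [hK] at h3
  have hs : D.s2 c = k ^ 2 := by
    have e0 := h3 0
    have e1 := h3 1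
    have e2 := h3 2
    have e3 := h3 3
    simp at e0 e1 e2 e3
    rcases hv with h | h | h | h
    · exact mul_right_cancel₀ h (by linear_combination e0)
    · exact mul_right_cancel₀ h (by linear_combination e1)
    · exact mul_right_cancel₀ h (by linear_combination e2)
    · exact mul_right_cancel₀ h (by linear_combination e3)
  have e5 := h3 5
  rw [hs, hy] at e5
  simp at e5
  have : (2 * D.B.det) * W = 0 := by linear_combination (-1 : F) * e5
  exact (mul_eq_zero.1 this).resolve_left (mul_ne_zero h2 hB)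

end Pool.Agent.GSR
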