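import Pool.Agent.GSR.RTwo

set_option autoImplicit false

/-!
# GSR: part R: four coordinates of the third point generate everything
-/

namespace Pool.Agent.GSR

open Matrix

section Ring

variable {F F' : Type} [CommRing F] [CommRing F'] (f : F →+* F')

theorem Dat.map_m (D : Dat F) (v : Fin 6 → F) :
    (D.map f).m (fun i => f (v i)) = f (D.m v) := by
  rw [Dat.m, D.map_e1 f v, D.map_e2 f v, Dat.m, map_sub, map_mul, map_mul]

theorem Dat.map_p0 (D : Dat F) (v : Fin 6 → F) :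
    (D.map f).p0 (fun i => f (v i)) = f (D.p0 v) := by
  rw [Dat.p0, D.map_e0 f v, D.map_e2 f v, Dat.p0, map_sub, map_mul, map_mul]

theorem Dat.map_p1 (D : Dat F) (v : Fin 6 → F) :
    (D.map f).p1 (fun i => f (v i)) = f (D.p1 v) := by
  rw [Dat.p1, D.map_e1 f v, D.map_e0 f v, Dat.p1, map_sub, map_mul, map_mul]

theorem Dat.map_rho (D : Dat F) (v : Fin 6 → F) :
    (D.map f).rho (fun i => f (v i)) = f (D.rho v) := by
  simp [Dat.rho, ln, bl, Dat.map, Matrix.adjugate_fin_two, Matrix.mul_apply]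

theorem Dat.map_A0 (D : Dat F) (a b c : F) (v : Fin 6 → F) :
    (D.map f).A0 (f a) (f b) (f c) (fun i => f (v i)) = f (D.A0 a b c v) := by
  have h2 : f 2 = 2 := map_ofNat f 2
  simp [Dat.A0, ln, Dat.map, h2]

theorem Dat.map_A1 (D : Dat F) (a b c : F) (v : Fin 6 → F) :
    (D.map f).A1 (f a) (f b) (f c) (fun i => f (v i)) = f (D.A1 a b c v) := by
  have h2 : f 2 = 2 := map_ofNat f 2
  simp [Dat.A1, ln, bl, mix, Dat.map, h2, Matrix.det_fin_two, Matrix.adjugate_fin_two,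
    Matrix.mul_apply]

theorem Dat.map_Lam (D : Dat F) (v : Fin 6 → F) (a b : F) :
    (D.map f).Lam (fun i => f (v i)) (f a) (f b) = f (D.Lam v a b) := by
  simp [Dat.Lam, ln, Dat.map, Matrix.adjugate_fin_two, Matrix.det_fin_two]

theorem Dat.map_M0 (D : Dat F) (v : Fin 6 → F) :
    (D.map f).M0 (fun i => f (v i)) = f (D.M0 v) := by
  rw [Dat.M0, D.map_m, D.map_p0, D.map_p1, D.map_rho, D.map_A0, D.map_e1, D.map_tau0, D.map_ta,
    D.map_tb, Dat.M0]
  simp only [map_add, map_sub, map_mul]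

theorem Dat.map_M1 (D : Dat F) (v : Fin 6 → F) :
    (D.map f).M1 (fun i => f (v i)) = f (D.M1 v) := by
  rw [Dat.M1, D.map_m, D.map_p0, D.map_p1, D.map_rho, D.map_A1, D.map_e2, D.map_tau0, D.map_ta,
    D.map_tb, Dat.M1]
  simp only [map_add, map_sub, map_mul]

theorem Dat.map_map {F'' : Type} [CommRing F''] (g : F' →+* F'') (D : Dat F) :
    (D.map f).map g = D.map (g.comp f) := by
  simp [Dat.map, Matrix.map_map]

end Ring

/-- Non-degeneracy descends. -/
theorem Dat.NDeg.of_map {F F' : Type} [Field F] [Field F'] (f : F →+* F') (D : Dat F)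
    (v : Fin 6 → F) (h : (D.map f).NDeg (fun i => f (v i))) : D.NDeg v := by
  refine ⟨?_, ?_, ?_, ?_⟩
  · exact f.injective (by rw [map_one]; exact h.y)
  · have := h.m
    rw [D.map_m f v] at this
    exact (map_ne_zero f).1 this
  · have := h.lam
    rw [D.map_M0 f v, D.map_M1 f v, ← map_neg, D.map_Lam f v] at this
    exact (map_ne_zero f).1 this
  · have := h.st
    simp only [Dat.map, ← map_mul', ← map_sub', map_bl] at this
    exact (map_ne_zero f).1 this

theorem Dat.NDeg.map {F F' : Type} [Field F] [Field F'] (f : F →+* F') (D : Dat F)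
    (v : Fin 6 → F) (h : D.NDeg v) : (D.map f).NDeg (fun i => f (v i)) := by
  refine ⟨?_, ?_, ?_, ?_⟩
  · show f (v 5) = 1
    rw [h.y, map_one]
  · rw [D.map_m f v]
    exact (map_ne_zero f).2 h.m
  · rw [D.map_M0 f v, D.map_M1 f v, ← map_neg, D.map_Lam f v]
    exact (map_ne_zero f).2 h.lam
  · simp only [Dat.map, ← map_mul', ← map_sub', map_bl]
    exact (map_ne_zero f).2 h.st

/-- **Part R.** A field which contains the first four coordinates of a zero `v` of `f₃` with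
`y = 1` on the fibre over `c` contains all coordinates of `v` and `c`. -/
theorem r_gen {k Ω : Type} [Field k] [Field Ω] [Algebra k Ω] (h2 : (2 : k) ≠ 0) (D : Dat k)
    (hB : D.B.det ≠ 0) (c : Fin 2 → Ω) (v : Fin 6 → Ω)
    (hn : (D.map (algebraMap k Ω)).NDeg v) (hf : (D.map (algebraMap k Ω)).f3 v = 0)
    (hO : (D.map (algebraMap k Ω)).IsO c v) (T : IntermediateField k Ω)
    (h0 : v 0 ∈ T) (h1 : v 1 ∈ T) (h2' : v 2 ∈ T) (h3 : v 3 ∈ T) :
    (∀ i, v i ∈ T) ∧ ∀ i, c i ∈ T := by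
  set f : T →+* Ω := algebraMap T Ω with hfdef
  set D₀ : Dat T := D.map (algebraMap k T) with hD₀
  have hDD : D₀.map f = D.map (algebraMap k Ω) := by
    rw [hD₀, Dat.map_map]
    rw [IsScalarTower.algebraMap_eq k T Ω]
  set u : Fin 6 → T := ![⟨v 0, h0⟩, ⟨v 1, h1⟩, ⟨v 2, h2'⟩, ⟨v 3, h3⟩, 0, 1] with hu
  set x : T := (ln D₀.B.adjugate D₀.δ u * bl (D₀.N * D₀.B - D₀.B * D₀.N) u u -
    ln D₀.B.adjugate D₀.γ u * bl (D₀.E * D₀.B - D₀.B * D₀.E) u u +
    bl (D₀.B.adjugate * (D₀.E * D₀.N - D₀.N * D₀.E) * D₀.B.adjugate) u u) /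
      (D₀.B.det * bl (D₀.N * D₀.B - D₀.B * D₀.N) u u) with hx
  set v₀ : Fin 6 → T := ![⟨v 0, h0⟩, ⟨v 1, h1⟩, ⟨v 2, h2'⟩, ⟨v 3, h3⟩, x, 1] with hv₀
  have hbl : ∀ M : Matrix (Fin 2) (Fin 2) T, bl (M.map f) v v = f (bl M u u) := by
    intro M
    simp [bl, hu, hfdef]
  have hln : ∀ (M : Matrix (Fin 2) (Fin 2) T) (d : Fin 4 → T),
      ln (M.map f) (fun i => f (d i)) v = f (ln M d u) := by
    intro M d
    simp [ln, hu, hfdef]
  have hB₀ : D₀.B.det ≠ 0 := by
    rw [hD₀, Dat.map, map_det']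
    exact (map_ne_zero _).2 hB
  have hv4 : v 4 = f x := by
    rw [← hDD] at hf hn
    have hst := hn.st
    simp only [Dat.map, ← map_mul', ← map_sub'] at hst
    rw [hbl] at hst
    rw [Dat.f3] at hf
    simp only [Dat.map, map_adj, map_det', ← map_mul', ← map_sub'] at hf
    rw [hbl, hbl, hbl, hln, hln, hn.y] at hf
    have hd : f (D₀.B.det) * f (bl (D₀.N * D₀.B - D₀.B * D₀.N) u u) ≠ 0 :=
      mul_ne_zero ((map_ne_zero f).2 hB₀) hst
    rw [hx, map_div₀, map_mul f D₀.B.det, eq_div_iff hd]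
    simp only [map_add, map_sub, map_mul]
    linear_combination (-1 : Ω) * hf
  have hvv : v = fun i => f (v₀ i) := by
    have hy := hn.y
    funext i
    fin_cases i
    · rfl
    · rfl
    · rfl
    · rfl
    · exact hv4
    · show v 5 = f 1
      rw [hy, map_one]
  have hn₀ : D₀.NDeg v₀ := by
    refine Dat.NDeg.of_map f D₀ v₀ ?_
    rw [hDD, ← hvv]
    exact hn
  have hf₀ : D₀.f3 v₀ = 0 := by
    apply f.injective
    rw [map_zero, ← D₀.map_f3 f v₀, hDD, ← hvv]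
    exact hf
  have h2T : (2 : T) ≠ 0 := by
    have := (map_ne_zero (algebraMap k T)).2 h2
    rwa [map_ofNat] at this
  obtain ⟨c', hc'⟩ := r_two f h2T D₀ hB₀ v₀ hn₀ hf₀ c (by rw [hDD, ← hvv]; exact hO)
  refine ⟨fun i => ?_, fun i => ?_⟩
  · rw [hvv]
    exact (v₀ i).2
  · rw [hc' i]
    exact (c' i).2

end Pool.Agent.GSR
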