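import Pool.Agent.GSR.Quad

set_option autoImplicit false

/-!
# GSR: `c` is a rational function of the third point
-/

namespace Pool.Agent.GSR

open Matrix

section Ring

variable {F : Type} [CommRing F]

/-- The minor of the vectors `y u`, `e₂`. -/
def Dat.m (D : Dat F) (v : Fin 6 → F) : F := D.e1 v 0 * D.e2 v 1 - D.e1 v 1 * D.e2 v 0

def Dat.p0 (D : Dat F) (v : Fin 6 → F) : F := D.e0 v 0 * D.e2 v 1 - D.e0 v 1 * D.e2 v 0

def Dat.p1 (D : Dat F) (v : Fin 6 → F) : F := D.e1 v 0 * D.e0 v 1 - D.e1 v 1 * D.e0 v 0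

def Dat.M0 (D : Dat F) (v : Fin 6 → F) : F :=
  D.m v * D.tau0 v (D.e1 v) + D.p0 v * D.ta v (D.e1 v) + D.p1 v * D.tb v (D.e1 v) -
    D.rho v * D.A0 (D.m v) (D.p0 v) (D.p1 v) v

def Dat.M1 (D : Dat F) (v : Fin 6 → F) : F :=
  D.m v * D.tau0 v (D.e2 v) + D.p0 v * D.ta v (D.e2 v) + D.p1 v * D.tb v (D.e2 v) -
    D.rho v * D.A1 (D.m v) (D.p0 v) (D.p1 v) v

/-- Non-degeneracy at `v`. -/
structure Dat.NDeg (D : Dat F) (v : Fin 6 → F) : Prop where
  y : v 5 = 1
  m : D.m v ≠ 0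
  lam : D.Lam v (D.M1 v) (-D.M0 v) ≠ 0
  st : bl (D.N * D.B - D.B * D.N) v v ≠ 0

end Ring

variable {F : Type} [Field F]

/-- Two orthogonal vectors and a vector orthogonal to both. -/
theorem lagr (e1 e2 z v : Fin 6 → F) (hm : e1 0 * e2 1 - e1 1 * e2 0 ≠ 0)
    (h15 : e1 5 = 0) (h25 : e2 5 = 0) (hz0 : z 0 = 0) (hz1 : z 1 = 0) (hz5 : z 5 = 0)
    (hy : v 5 = 1) (h1 : w z e1 = 0) (h2 : w z e2 = 0) (h3 : w v z = 0) (i : Fin 6) :
    z i = 0 := by
  have a1 : e1 0 * z 2 + e1 1 * z 3 = 0 := by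
    simp [w, bl, hz0, hz1, hz5, h15] at h1
    linear_combination (-1 : F) * h1
  have a2 : e2 0 * z 2 + e2 1 * z 3 = 0 := by
    simp [w, bl, hz0, hz1, hz5, h25] at h2
    linear_combination (-1 : F) * h2
  have z2 : z 2 = 0 := by
    have : (e1 0 * e2 1 - e1 1 * e2 0) * z 2 = 0 := by
      linear_combination e2 1 * a1 - e1 1 * a2
    exact (mul_eq_zero.1 this).resolve_left hm
  have z3 : z 3 = 0 := by
    have : (e1 0 * e2 1 - e1 1 * e2 0) * z 3 = 0 := by
      linear_combination (-e2 0) * a1 + e1 0 * a2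
    exact (mul_eq_zero.1 this).resolve_left hm
  have z4 : z 4 = 0 := by
    simp [w, bl, hz0, hz1, hz5, z2, z3, hy] at h3
    exact h3
  fin_cases i
  · exact hz0
  · exact hz1
  · exact z2
  · exact z3
  · exact z4
  · exact hz5

/-- The eigenplane through a zero of `f₃`. -/
theorem e_zero (D : Dat F) (v : Fin 6 → F) (hy : v 5 = 1) (hm : D.m v ≠ 0)
    (hf : D.f3 v = 0) : ∀ i, D.e ![D.p0 v / D.m v, D.p1 v / D.m v] v i = 0 := by
  have hlin : ∀ x : Fin 6 → F, w (fun i => D.e0 v i - D.p0 v / D.m v * D.e1 v i -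
      D.p1 v / D.m v * D.e2 v i) x = w (D.e0 v) x - D.p0 v / D.m v * w (D.e1 v) x -
      D.p1 v / D.m v * w (D.e2 v) x := by
    intro x
    simp only [w, bl]
    ring
  have hlin' : ∀ x : Fin 6 → F, w x (fun i => D.e0 v i - D.p0 v / D.m v * D.e1 v i -
      D.p1 v / D.m v * D.e2 v i) = w x (D.e0 v) - D.p0 v / D.m v * w x (D.e1 v) -
      D.p1 v / D.m v * w x (D.e2 v) := by
    intro x
    simp only [w, bl]
    ring
  have h0 : ∀ i, D.e ![D.p0 v / D.m v, D.p1 v / D.m v] v i = D.e0 v i -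
      D.p0 v / D.m v * D.e1 v i - D.p1 v / D.m v * D.e2 v i := by
    intro i
    rw [D.e_eq]
    simp
  intro i
  rw [h0]
  refine lagr (D.e1 v) (D.e2 v) (fun i => D.e0 v i - D.p0 v / D.m v * D.e1 v i -
      D.p1 v / D.m v * D.e2 v i) v hm rfl rfl ?_ ?_ ?_ hy ?_ ?_ ?_ i
  · field_simp
    rw [Dat.m, Dat.p0, Dat.p1]
    ring
  · field_simp
    rw [Dat.m, Dat.p0, Dat.p1]
    ring
  · have e05 : D.e0 v 5 = 0 := rfl
    have e15 : D.e1 v 5 = 0 := rfl
    have e25 : D.e2 v 5 = 0 := rfl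
    simp only [e05, e15, e25]
    ring
  · rw [hlin, w_self]
    have a : w (D.e0 v) (D.e1 v) = 0 := w_ev_e1 _ _ _ _
    have b : w (D.e2 v) (D.e1 v) = 0 := w_ew_e1 _ _ _ _
    rw [a, b]
    ring
  · rw [hlin, w_e0_e2, hf, w_e1_e2, w_self]
    ring
  · rw [hlin']
    have a : w v (D.e0 v) = 0 := w_v_ev _ _ _ _
    have b : w v (D.e1 v) = 0 := w_v_ew _ _ _ _
    have d : w v (D.e2 v) = 0 := w_v_ew _ _ _ _
    rw [a, b, d]
    ring

/-- **Part (R2)**: `c` is a rational function of the third point. -/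
theorem r_two {Ω : Type} [Field Ω] (f : F →+* Ω) (h2 : (2 : F) ≠ 0) (D : Dat F)
    (hB : D.B.det ≠ 0) (v : Fin 6 → F) (hn : D.NDeg v) (hf : D.f3 v = 0) (c : Fin 2 → Ω)
    (hO : (D.map f).IsO c (fun i => f (v i))) : ∃ c' : Fin 2 → F, ∀ i, c i = f (c' i) := by
  have h2' : (2 : Ω) ≠ 0 := by
    have := (map_ne_zero f).2 h2
    rwa [map_ofNat] at this
  -- the first root
  set b : Fin 2 → F := ![D.p0 v / D.m v, D.p1 v / D.m v] with hb
  have hm0 : D.m v * b 0 = D.p0 v := by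
    simp only [hb, Matrix.cons_val_zero]
    rw [mul_div_cancel₀ _ hn.m]
  have hm1 : D.m v * b 1 = D.p1 v := by
    simp only [hb, Matrix.cons_val_one, Matrix.cons_val_fin_one]
    rw [mul_div_cancel₀ _ hn.m]
  have he : ∀ i, D.e b v i = 0 := e_zero D v hn.y hn.m hf
  have hv : v 0 ≠ 0 ∨ v 1 ≠ 0 ∨ v 2 ≠ 0 ∨ v 3 ≠ 0 := by
    by_contra hcon
    push Not at hcon
    apply hn.st
    simp [bl, hcon.1, hcon.2.1]
  have hq : qf D.B (D.Z b) (D.χ b) v = 0 := by
    have h := w_of_e h2 D hB b v hn.y hv he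
    rw [Dat.K, w_KK] at h
    exact (mul_eq_zero.1 h).resolve_left (neg_ne_zero.2 h2)
  -- over `Ω`
  set D' : Dat Ω := D.map f with hD'
  set v' : Fin 6 → Ω := fun i => f (v i) with hv'
  have hy' : v' 5 = 1 := by simp only [hv']; rw [hn.y, map_one]
  set b' : Fin 2 → Ω := fun i => f (b i) with hb'
  set g0 : Ω := c 0 - b' 0 with hg0
  set g1 : Ω := c 1 - b' 1 with hg1
  have hc : c = fun i => b' i + (![g0, g1] : Fin 2 → Ω) i := by
    funext i
    fin_cases i <;> simp [hg0, hg1]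
  have hE0 : D'.e0 v' = fun i => f (D.e0 v i) := D.map_e0 f v
  have hE1 : D'.e1 v' = fun i => f (D.e1 v i) := D.map_e1 f v
  have hE2 : D'.e2 v' = fun i => f (D.e2 v i) := D.map_e2 f v
  have heb : ∀ i, D'.e0 v' i = b' 0 * D'.e1 v' i + b' 1 * D'.e2 v' i := by
    intro i
    rw [hE0, hE1, hE2]
    have := he i
    rw [D.e_eq] at this
    have h := congrArg f this
    simp only [map_sub, map_mul, map_zero] at h
    linear_combination h
  have hec : ∀ i, D'.e c v' i = -(g0 * D'.e1 v' i + g1 * D'.e2 v' i) := by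
    intro i
    rw [D'.e_eq, heb i, hg0, hg1]
    ring
  -- the first equation
  have hQ1 : f (D.A0 (D.m v) (D.p0 v) (D.p1 v) v) * g0 +
      f (D.A1 (D.m v) (D.p0 v) (D.p1 v) v) * g1 + f (D.m v) * D'.Lam v' g0 g1 = 0 := by
    have h1 := hO.1
    rw [Dat.K, w_KK] at h1
    have h3 := (mul_eq_zero.1 h1).resolve_left (neg_ne_zero.2 h2')
    have h4 := qf_expand D' (f (D.m v)) g0 g1 b' v' hy'
    rw [← hc, h3] at h4
    have h5 : qf D'.B (D'.Z b') (D'.χ b') v' = 0 := by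
      have h6 : w v' (D'.K b' v') = 0 := by
        have h7 : D'.K b' v' = fun i => f (D.K b v i) := D.map_K f b v
        rw [h7, map_w, Dat.K, w_KK, hq]
        simp
      rw [Dat.K, w_KK] at h6
      exact (mul_eq_zero.1 h6).resolve_left (neg_ne_zero.2 h2')
    have hA0 : D'.A0 (f (D.m v)) (f (D.m v) * b' 0) (f (D.m v) * b' 1) v' =
        f (D.A0 (D.m v) (D.p0 v) (D.p1 v) v) := by
      rw [hb', ← map_mul, ← map_mul, hm0, hm1]
      have h2'' : f 2 = 2 := map_ofNat f 2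
      simp [Dat.A0, ln, hD', Dat.map, hv', h2'']
    have hA1 : D'.A1 (f (D.m v)) (f (D.m v) * b' 0) (f (D.m v) * b' 1) v' =
        f (D.A1 (D.m v) (D.p0 v) (D.p1 v) v) := by
      rw [hb', ← map_mul, ← map_mul, hm0, hm1]
      have h2'' : f 2 = 2 := map_ofNat f 2
      simp [Dat.A1, ln, bl, mix, hD', Dat.map, hv', h2'', Matrix.det_fin_two,
        Matrix.adjugate_fin_two, Matrix.mul_apply]
    rw [h5, hA0, hA1, mul_zero, zero_add] at h4
    exact h4.symm
  -- the second equation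
  have hrho : D'.rho v' = f (D.rho v) := by
    simp [Dat.rho, ln, bl, hD', Dat.map, hv', Matrix.adjugate_fin_two, Matrix.mul_apply]
  have ht0 : ∀ x : Fin 6 → F, D'.tau0 v' (fun i => f (x i)) = f (D.tau0 v x) :=
    fun x => D.map_tau0 f v x
  have hta : ∀ x : Fin 6 → F, D'.ta v' (fun i => f (x i)) = f (D.ta v x) :=
    fun x => D.map_ta f v x
  have htb : ∀ x : Fin 6 → F, D'.tb v' (fun i => f (x i)) = f (D.tb v x) :=
    fun x => D.map_tb f v x
  have hQ2 : f (D.m v * D.tau0 v (D.e1 v) + D.p0 v * D.ta v (D.e1 v) +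
      D.p1 v * D.tb v (D.e1 v)) * g0 + f (D.m v * D.tau0 v (D.e2 v) +
      D.p0 v * D.ta v (D.e2 v) + D.p1 v * D.tb v (D.e2 v)) * g1 +
      f (D.m v) * (f (D.rho v) * D'.Lam v' g0 g1) = 0 := by
    have hW := hO.1
    have h1 : D'.K c v' = fun i => kap D'.B (D'.Z c) (D'.χ c) v' * v' i + 2 * D'.e c v' i := by
      funext i
      have := KK_eq D'.B (D'.Z c) (D'.χ c) v' i
      rw [← Dat.K, ← Dat.e, hW, hy', one_mul, zero_mul, sub_zero] at this
      exact this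
    have h3 := hO.2
    rw [h1] at h3
    have hlin : ∀ k : Ω, ∀ x : Fin 6 → Ω, D'.tau c v' (fun i => k * v' i + 2 * x i) =
        2 * D'.tau c v' x := by
      intro k x
      have a1 : D'.ta v' (fun i => k * v' i + 2 * x i) = 2 * D'.ta v' x := by
        simp only [Dat.ta, bl, ln]
        ring
      have a2 : D'.tb v' (fun i => k * v' i + 2 * x i) = 2 * D'.tb v' x := by
        simp only [Dat.tb, ln]
        ring
      have a3 : D'.tau0 v' (fun i => k * v' i + 2 * x i) = 2 * D'.tau0 v' x := by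
        simp only [Dat.tau0, Finset.mul_sum]
        refine Finset.sum_congr rfl fun i _ => Finset.sum_congr rfl fun j _ => ?_
        ring
      rw [Dat.tau, a1, a2, a3, Dat.tau]
      ring
    rw [hlin] at h3
    have h4 := (mul_eq_zero.1 h3).resolve_left h2'
    have h5 : D'.e c v' = fun i => -(g0 * D'.e1 v' i + g1 * D'.e2 v' i) := funext hec
    rw [h5] at h4
    have hlin2 : D'.tau c v' (fun i => -(g0 * D'.e1 v' i + g1 * D'.e2 v' i)) =
        -(g0 * D'.tau c v' (D'.e1 v') + g1 * D'.tau c v' (D'.e2 v')) := by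
      have a1 : D'.ta v' (fun i => -(g0 * D'.e1 v' i + g1 * D'.e2 v' i)) =
          -(g0 * D'.ta v' (D'.e1 v') + g1 * D'.ta v' (D'.e2 v')) := by
        simp only [Dat.ta, bl, ln]
        ring
      have a2 : D'.tb v' (fun i => -(g0 * D'.e1 v' i + g1 * D'.e2 v' i)) =
          -(g0 * D'.tb v' (D'.e1 v') + g1 * D'.tb v' (D'.e2 v')) := by
        simp only [Dat.tb, ln]
        ring
      have a3 : D'.tau0 v' (fun i => -(g0 * D'.e1 v' i + g1 * D'.e2 v' i)) =
          -(g0 * D'.tau0 v' (D'.e1 v') + g1 * D'.tau0 v' (D'.e2 v')) := by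
        simp only [Dat.tau0, Finset.mul_sum, ← Finset.sum_add_distrib, ← Finset.sum_neg_distrib]
        refine Finset.sum_congr rfl fun i _ => Finset.sum_congr rfl fun j _ => ?_
        ring
      rw [Dat.tau, a1, a2, a3, Dat.tau, Dat.tau]
      ring
    rw [hlin2] at h4
    have i1 := ta_e1 D' v' hy'
    have i2 := tab_e D' v' hy'
    have i3 := tb_e2 D' v' hy'
    have c0 : c 0 = b' 0 + g0 := by rw [hg0]; ring
    have c1 : c 1 = b' 1 + g1 := by rw [hg1]; ring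
    have j0 : f (D.m v) * b' 0 = f (D.p0 v) := by rw [hb', ← map_mul, hm0]
    have j1 : f (D.m v) * b' 1 = f (D.p1 v) := by rw [hb', ← map_mul, hm1]
    have k1 : f (D.tau0 v (D.e1 v)) = D'.tau0 v' (D'.e1 v') := by rw [hE1, ht0]
    have k2 : f (D.ta v (D.e1 v)) = D'.ta v' (D'.e1 v') := by rw [hE1, hta]
    have k3 : f (D.tb v (D.e1 v)) = D'.tb v' (D'.e1 v') := by rw [hE1, htb]
    have k4 : f (D.tau0 v (D.e2 v)) = D'.tau0 v' (D'.e2 v') := by rw [hE2, ht0]
    have k5 : f (D.ta v (D.e2 v)) = D'.ta v' (D'.e2 v') := by rw [hE2, hta]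
    have k6 : f (D.tb v (D.e2 v)) = D'.tb v' (D'.e2 v') := by rw [hE2, htb]
    simp only [map_add, map_mul, k1, k2, k3, k4, k5, k6, ← hrho, ← j0, ← j1]
    rw [Dat.tau, Dat.tau, c0, c1] at h4
    rw [Dat.Lam]
    linear_combination (-f (D.m v)) * h4 - f (D.m v) * g0 ^ 2 * i1 -
      f (D.m v) * g0 * g1 * i2 - f (D.m v) * g1 ^ 2 * i3
  -- the linear relation
  have hlin : f (D.M0 v) * g0 + f (D.M1 v) * g1 = 0 := by
    rw [Dat.M0, Dat.M1, map_sub, map_sub, map_mul, map_mul f (D.rho v)]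
    linear_combination hQ2 - f (D.rho v) * hQ1
  obtain ⟨σ, hσ0, hσ1⟩ : ∃ σ : Ω, g0 = σ * f (D.M1 v) ∧ g1 = σ * f (-D.M0 v) := by
    by_cases h : D.M1 v = 0
    · have h0 : D.M0 v ≠ 0 := by
        intro h0
        apply hn.lam
        rw [h, h0]
        simp [Dat.Lam]
      have h0' : f (D.M0 v) ≠ 0 := (map_ne_zero f).2 h0
      refine ⟨-g1 / f (D.M0 v), ?_, ?_⟩
      · rw [h, map_zero, mul_zero]
        rw [h, map_zero, zero_mul, add_zero] at hlin
        exact (mul_eq_zero.1 hlin).resolve_left h0'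
      · rw [map_neg]
        field_simp
    · have h' : f (D.M1 v) ≠ 0 := (map_ne_zero f).2 h
      refine ⟨g0 / f (D.M1 v), ?_, ?_⟩
      · field_simp
      · rw [map_neg]
        field_simp
        linear_combination hlin
  have hLam : D'.Lam v' (f (D.M1 v)) (f (-D.M0 v)) = f (D.Lam v (D.M1 v) (-D.M0 v)) := by
    simp [Dat.Lam, ln, hD', Dat.map, hv', Matrix.adjugate_fin_two, Matrix.det_fin_two]
  have hLam2 : D'.Lam v' g0 g1 = σ ^ 2 * f (D.Lam v (D.M1 v) (-D.M0 v)) := by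
    rw [← hLam, hσ0, hσ1, Dat.Lam, Dat.Lam]
    ring
  have hfin : ∃ s' : F, σ = f s' := by
    by_cases h : σ = 0
    · exact ⟨0, by rw [h, map_zero]⟩
    · refine ⟨-(D.A0 (D.m v) (D.p0 v) (D.p1 v) v * D.M1 v +
        D.A1 (D.m v) (D.p0 v) (D.p1 v) v * (-D.M0 v)) /
          (D.m v * D.Lam v (D.M1 v) (-D.M0 v)), ?_⟩
      have hd : f (D.m v) * f (D.Lam v (D.M1 v) (-D.M0 v)) ≠ 0 :=
        mul_ne_zero ((map_ne_zero f).2 hn.m) ((map_ne_zero f).2 hn.lam)
      rw [map_div₀, map_mul, eq_div_iff hd]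
      rw [hLam2, hσ0, hσ1] at hQ1
      have h3 : σ * (σ * (f (D.m v) * f (D.Lam v (D.M1 v) (-D.M0 v))) +
          (f (D.A0 (D.m v) (D.p0 v) (D.p1 v) v) * f (D.M1 v) +
            f (D.A1 (D.m v) (D.p0 v) (D.p1 v) v) * f (-D.M0 v))) = 0 := by
        linear_combination hQ1
      have h4 := (mul_eq_zero.1 h3).resolve_left h
      rw [map_neg, map_add, map_mul, map_mul]
      linear_combination h4
  obtain ⟨s', hs'⟩ := hfin
  refine ⟨![b 0 + s' * D.M1 v, b 1 + s' * (-D.M0 v)], fun i => ?_⟩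
  have c0 : c 0 = b' 0 + g0 := by rw [hg0]; ring
  have c1 : c 1 = b' 1 + g1 := by rw [hg1]; ring
  fin_cases i
  · show c 0 = f (b 0 + s' * D.M1 v)
    rw [c0, hσ0, hs', map_add, map_mul]
  · show c 1 = f (b 1 + s' * (-D.M0 v))
    rw [c1, hσ1, hs', map_add, map_mul]

end Pool.Agent.GSR
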