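import Pool.Agent.GSR.Defs

set_option autoImplicit false

namespace Pool.Agent.GSR

open Matrix

variable {F : Type} [CommRing F]

theorem KK_KK (B Z : Matrix (Fin 2) (Fin 2) F) (χ : Fin 4 → F) (v : Fin 6 → F) (i : Fin 6) :
    KK B Z χ (KK B Z χ v) i = disc B Z * v i := by
  fin_cases i <;>
  simp [KK, disc, mix, ln, Matrix.det_fin_two, Matrix.adjugate_fin_two, Matrix.mul_apply,
    Fin.sum_univ_two] <;> ring

end Pool.Agent.GSR
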