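import Pool.Agent.GSR.Sq

set_option autoImplicit false

/-!
# GSR: the auxiliary vectors and the identities behind part R
-/

namespace Pool.Agent.GSR

open Matrix

variable {F : Type} [CommRing F]

/-- `y (B' M)ᵀ S - c(B') S`, the same for `T`, and `- Sᵀ [M, B] T`. -/
def ew (B M : Matrix (Fin 2) (Fin 2) F) (c : Fin 4 → F) (v : Fin 6 → F) : Fin 6 → F :=
  ![v 5 * (v 0 * (B.adjugate * M) 0 0 + v 1 * (B.adjugate * M) 1 0) - ln B.adjugate c v * v 0,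
    v 5 * (v 0 * (B.adjugate * M) 0 1 + v 1 * (B.adjugate * M) 1 1) - ln B.adjugate c v * v 1,
    v 5 * ((M * B.adjugate) 0 0 * v 2 + (M * B.adjugate) 0 1 * v 3) - ln B.adjugate c v * v 2,
    v 5 * ((M * B.adjugate) 1 0 * v 2 + (M * B.adjugate) 1 1 * v 3) - ln B.adjugate c v * v 3,
    -bl (M * B - B * M) v v, 0]

/-- `ew` plus `x det B` times the projection of `v`. -/
def ev (B M : Matrix (Fin 2) (Fin 2) F) (c : Fin 4 → F) (v : Fin 6 → F) : Fin 6 → F :=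
  ![B.det * v 4 * v 0 + ew B M c v 0, B.det * v 4 * v 1 + ew B M c v 1,
    B.det * v 4 * v 2 + ew B M c v 2, B.det * v 4 * v 3 + ew B M c v 3, ew B M c v 4, 0]

/-- The vector `e_c`. -/
def Dat.e (D : Dat F) (c : Fin 2 → F) (v : Fin 6 → F) : Fin 6 → F := ev D.B (D.Z c) (D.χ c) v

/-- The vector `e₀`. -/
def Dat.e0 (D : Dat F) (v : Fin 6 → F) : Fin 6 → F := ev D.B D.E D.δ v

/-- The vector `y u`. -/
def Dat.e1 (D : Dat F) (v : Fin 6 → F) : Fin 6 → F := ew D.B 1 0 v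

/-- The vector `e₂`. -/
def Dat.e2 (D : Dat F) (v : Fin 6 → F) : Fin 6 → F := ew D.B D.N D.γ v

theorem Dat.e_eq (D : Dat F) (c : Fin 2 → F) (v : Fin 6 → F) (i : Fin 6) :
    D.e c v i = D.e0 v i - c 0 * D.e1 v i - c 1 * D.e2 v i := by
  fin_cases i <;>
  simp [Dat.e, Dat.e0, Dat.e1, Dat.e2, ev, ew, Dat.Z, Dat.χ, ln, bl, Matrix.adjugate_fin_two,
    Matrix.mul_apply, Fin.sum_univ_two, Matrix.det_fin_two] <;> ring

/-- The eigenvalue at `v` if `e_c` vanishes. -/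
def kap (B Z : Matrix (Fin 2) (Fin 2) F) (χ : Fin 4 → F) (v : Fin 6 → F) : F :=
  -2 * B.det * v 4 - mix B Z * v 5 + 2 * ln B.adjugate χ v

theorem KK_eq (B Z : Matrix (Fin 2) (Fin 2) F) (χ : Fin 4 → F) (v : Fin 6 → F) (i : Fin 6) :
    v 5 * KK B Z χ v i = kap B Z χ v * v i + 2 * ev B Z χ v i -
      w v (KK B Z χ v) * (if i = 4 then 1 else 0) := by
  fin_cases i <;>
  simp [KK, kap, ev, ew, w, mix, ln, bl, Matrix.det_fin_two, Matrix.adjugate_fin_two,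
    Matrix.mul_apply, Fin.sum_univ_two] <;> ring

set_option maxRecDepth 4000 in
theorem w_e0_e2 (D : Dat F) (v : Fin 6 → F) : w (D.e0 v) (D.e2 v) = v 5 * D.f3 v := by
  simp [Dat.e0, Dat.e2, Dat.f3, ev, ew, w, ln, bl, Matrix.det_fin_two, Matrix.adjugate_fin_two,
    Matrix.mul_apply, Matrix.vecMul, dotProduct, Fin.sum_univ_two]
  ring

theorem w_ev_e1 (B M : Matrix (Fin 2) (Fin 2) F) (c : Fin 4 → F) (v : Fin 6 → F) :
    w (ev B M c v) (ew B 1 0 v) = 0 := by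
  simp [ev, ew, w, ln, bl, Matrix.det_fin_two, Matrix.adjugate_fin_two,
    Matrix.mul_apply, Fin.sum_univ_two]
  ring

theorem w_ew_e1 (B M : Matrix (Fin 2) (Fin 2) F) (c : Fin 4 → F) (v : Fin 6 → F) :
    w (ew B M c v) (ew B 1 0 v) = 0 := by
  simp [ew, w, ln, bl, Matrix.adjugate_fin_two, Matrix.mul_apply, Fin.sum_univ_two]
  ring

end Pool.Agent.GSR
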